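import Pool.Agent.Helper50.AY.St

/-!
# Project AY (MP_b3ce06_al), module RA: Artin-Schreier rings
-/

set_option autoImplicit false

namespace Pool.Agent.Helper21.AY

open Pool.Agent.Helper50.AY Pool.Agent.Helper43.GD Polynomial

theorem isUnit_two {L : Type} [CommRing L] (p : ℕ) (hp : p.Prime) (h5 : 5 ≤ p)
    (hc : (p : L) = 0) : IsUnit (2 : L) := by
  obtain ⟨m, hm⟩ := hp.odd_of_ne_two (by omega)
  have h1 : (2 : L) * ((m : L) + 1) = 1 := by
    have h2 : ((2 * m + 1 : ℕ) : L) = 0 := by rw [← hm]; exact hc
    push_cast at h2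
    linear_combination h2
  exact IsUnit.of_mul_eq_one _ h1

/-- RA. -/
theorem hRA : StRA := by
  intro L _ p k x hR
  have hu2 : IsUnit (2 : L) := isUnit_two p hR.prime hR.five hR.char
  rcases subsingleton_or_nontrivial L with hs | hn
  · exact ⟨fun j => Subsingleton.elim _ _, fun y => Subsingleton.elim _ _,
      fun i => ⟨0, Subsingleton.elim _ _⟩, hu2, ⟨hR.fin, isUnit_of_subsingleton _⟩⟩
  · have hp := hR.prime
    have : Fact p.Prime := ⟨hp⟩
    have : CharP L p := (CharP.charP_iff_prime_eq_zero hp).2 hR.char
    have : ExpChar L p := ExpChar.prime hp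
    set ρ : ℕ := p ^ (p ^ k) with hρ
    have h1 : ∀ j : ℕ, 2 * (x : L) ^ (ρ ^ j) = 2 * (x : L) + (j : L) := by
      intro j
      induction j with
      | zero => simp
      | succ j ih =>
        have h2 := congrArg (iterateFrobenius L p (p ^ k)) ih
        rw [map_mul, map_add, map_mul, map_natCast] at h2
        have h3 : (iterateFrobenius L p (p ^ k)) (2 : L) = 2 := map_ofNat _ 2
        rw [h3, iterateFrobenius_def, iterateFrobenius_def, ← hρ, ← pow_mul, ← pow_succ,
          hR.as] at h2
        rw [h2]
        push_cast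
        ring
    have hinj : ∀ a b : L, 2 * a = 2 * b → a = b := fun a b h => hu2.mul_left_cancel h
    have h3 : ∀ i : ℕ, ∃ n : ℕ, (x : L) ^ n = (x : L) + (i : L) := by
      intro i
      refine ⟨ρ ^ (2 * i), ?_⟩
      apply hinj
      rw [h1]
      push_cast
      ring
    have hq : ρ ^ p = p ^ (p ^ (k + 1)) := by
      rw [hρ, ← pow_mul, ← pow_succ]
    have hx : (x : L) ^ (p ^ (p ^ (k + 1))) = (x : L) := by
      apply hinj
      rw [← hq, h1 p, hR.char, add_zero]
    have h2 : ∀ y : L, y ^ (p ^ (p ^ (k + 1))) = y := by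
      let N : AddSubgroup L :=
        { carrier := {y | y ^ (p ^ (p ^ (k + 1))) = y}
          zero_mem' := by
            have : iterateFrobenius L p (p ^ (k + 1)) 0 = 0 := map_zero _
            exact this
          add_mem' := by
            intro a b ha hb
            have : iterateFrobenius L p (p ^ (k + 1)) (a + b) =
              iterateFrobenius L p (p ^ (k + 1)) a + iterateFrobenius L p (p ^ (k + 1)) b :=
              map_add _ _ _
            simp only [iterateFrobenius_def] at this
            show (a + b) ^ (p ^ (p ^ (k + 1))) = a + b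
            rw [this, ha, hb]
          neg_mem' := by
            intro a ha
            have : iterateFrobenius L p (p ^ (k + 1)) (-a) =
              -iterateFrobenius L p (p ^ (k + 1)) a := map_neg _ _
            simp only [iterateFrobenius_def] at this
            show (-a) ^ (p ^ (p ^ (k + 1))) = -a
            rw [this, ha] }
      have h4 := hR.gn N (one_pow _) (by
        intro y hy
        show ((x : L) * y) ^ (p ^ (p ^ (k + 1))) = (x : L) * y
        rw [mul_pow, hx, hy])
      exact h4
    refine ⟨h1, h2, h3, hu2, ⟨hR.fin, ?_⟩⟩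
    obtain ⟨n1, hn1⟩ := h3 1
    obtain ⟨n2, hn2⟩ := h3 (p - 1)
    have h5 := hR.five
    have h6 : (((p - 1 : ℕ)) : L) = -1 := by
      rw [Nat.cast_sub (by omega), hR.char]
      simp
    have h7 : (x : L) ^ 2 - 1 = (x : L) ^ n1 * (x : L) ^ n2 := by
      rw [hn1, hn2, h6]
      push_cast
      ring
    rw [h7]
    exact (x.isUnit.pow _).mul (x.isUnit.pow _)

end Pool.Agent.Helper21.AY
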